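import Pool.Agent.H78.S.Targets

/-!
# Row LAB of the board sgt_modules (MP_9d0bb7_lc): the groups `lam`
-/

set_option autoImplicit false

open Set Pool.Agent.H77.BC Pool.Agent.H78.S
open scoped Pointwise

namespace Pool.Agent.H91.S

variable {M : Type} {G S : Type} [Group G] [MulAction G S]

theorem mv_mv (g h : G) (E : Set (S × S)) : mv g (mv h E) = mv (g * h) E := by
  ext p
  simp only [mv, mem_ofPred_eq, mul_inv_rev, mul_smul]

theorem mv_one (E : Set (S × S)) : mv (1 : G) E = E := by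
  ext p
  simp only [mv, mem_ofPred_eq, inv_one, one_smul]

theorem mv_inj (g : G) : Function.Injective (mv g : Set (S × S) → Set (S × S)) := by
  intro E F h
  have h2 := congrArg (mv g⁻¹) h
  rwa [mv_mv, mv_mv, inv_mul_cancel, mv_one, mv_one] at h2

theorem Pm_inv {n : ℕ} {x : Fin (n + 2) → S} {g : G} {σ : Equiv.Perm (Fin (n + 2))}
    (h : Pm x g σ) : Pm x g⁻¹ σ⁻¹ := by
  intro i
  rw [inv_smul_eq_iff, h]
  exact congrArg x (σ.apply_symm_apply i).symm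

theorem mem_lam {U : RU M} [Cod M G] [Cod M S] {n : ℕ}
    {x : Fin (n + 2) → S} {J : Set (Fin (n + 2))} {g : G} :
    g ∈ lam U G x J ↔ g ∈ TT U G x 0 ∧ ∀ i ∈ J, ∀ E ∈ LL U G x i, g ∈ kap (TT U G x 0) E := by
  unfold lam
  rw [Subgroup.mem_inf]
  simp only [Subgroup.mem_iInf]

/-- the lines are permuted -/
theorem mv_image (hLCJ : T_LCJ) {U : RU M} [Cod M G] [Cod M S] {n : ℕ} {x : Fin (n + 2) → S}
    (hF : Frm U G x) {g : G} {σ : Equiv.Perm (Fin (n + 2))} (hp : Pm x g σ) (h0 : σ 0 = 0)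
    {i : Fin (n + 2)} (hi : i ≠ 0) : mv g '' LL U G x i = LL U G x (σ i) := by
  ext F
  constructor
  · rintro ⟨E, hE, rfl⟩
    exact (hLCJ U x hF g σ hp h0 i hi E hE).1
  · intro hF2
    have h0' : σ⁻¹ 0 = 0 := by
      rw [Equiv.Perm.inv_eq_iff_eq, h0]
    have hi' : σ i ≠ 0 := by
      intro h
      exact hi (σ.injective (h.trans h0.symm))
    have h := (hLCJ U x hF g⁻¹ σ⁻¹ (Pm_inv hp) h0' (σ i) hi' F hF2).1
    rw [show σ⁻¹ (σ i) = i from σ.symm_apply_apply i] at h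
    exact ⟨_, h, by rw [mv_mv, mul_inv_cancel, mv_one]⟩

theorem pf_LAB (hLFI : T_LFI) (hLNK : T_LNK) (hLCJ : T_LCJ) (hCJH : T_CJH) (hHIC : T_HIC)
    (hCTB : T_CTB) : T_LAB := by
  intro M U G S _ _ _ _ n x hF J hJ
  have := hF.dg
  have := hF.ful
  have hne : ∀ i ∈ J, i ≠ 0 := fun i hi h => hJ (h ▸ hi)
  have hctx : ∀ i, i ≠ 0 → Ctx U (HH U G x 0 i) (XX U G x i) (TT U G x 0) (x i) (x 0) :=
    fun i hi => (hHIC U x hF i hi).1
  have hTT : U.D (TT U G x 0 : Set G) := by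
    have h1 : (1 : Fin (n + 2)) ≠ 0 := by
      intro h
      have := congrArg Fin.val h
      simp at this
    exact (hCTB U hF.act _ _ _ _ _ (hctx 1 h1)).2.2.2.2.1
  -- the multipliers
  have hχ : ∀ i, i ≠ 0 → ∀ E ∈ LL U G x i, ∃ (K : Type) (_ : Field K) (χ : G → K),
      χ 1 = 1 ∧ (∀ a ∈ TT U G x 0, ∀ b ∈ TT U G x 0, χ (a * b) = χ a * χ b) ∧
      (∀ a ∈ TT U G x 0, χ a ≠ 0) ∧
      ∀ t, t ∈ kap (TT U G x 0) E ↔ t ∈ TT U G x 0 ∧ χ t = 1 := by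
    intro i hi E hE
    obtain ⟨L⟩ := hE
    obtain ⟨h1, -, h3, -⟩ := hLNK U hF.act _ _ _ _ _ (hctx i hi) E L
    have hC := hCTB U hF.act _ _ _ _ _ (hctx i hi)
    refine ⟨L.K, L.fld, fun t => L.f (t • x 0), ?_, ?_, fun a ha => (h1 a ha).1, h3⟩
    · simp only [one_smul]
      exact L.line.f1
    · intro a ha b hb
      have hbX : b • x 0 ∈ XX U G x i :=
        hC.2.2.2.2.2.2.2.2.1 b (hC.2.2.2.2.2.2.1 hb) _ (hctx i hi).mem
      change L.f ((a * b) • x 0) = _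
      rw [mul_smul]
      exact (h1 a ha).2 _ hbX
  refine ⟨?_, ?_, ?_, ?_, ?_, ?_, ?_, ?_, ?_⟩
  · have e : (lam U G x J : Set G) = {g | g ∈ (TT U G x 0 : Set G) ∧ ∀ i : Fin (n + 2), i ∈ J →
        ∀ E : ↥(LL U G x i), g ∈ (kap (TT U G x 0) E.1 : Set G)} := by
      ext g
      rw [SetLike.mem_coe, mem_lam]
      constructor
      · rintro ⟨h1, h2⟩
        exact ⟨h1, fun i hi E => h2 i hi E.1 E.2⟩
      · rintro ⟨h1, h2⟩
        exact ⟨h1, fun i hi E hE => h2 i hi ⟨E, hE⟩⟩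
    rw [e]
    refine D_and hTT (D_forall_fin fun i => ?_)
    by_cases hi : i ∈ J
    · have : Finite ↥(LL U G x i) :=
        (hLFI U hF.act _ _ _ _ _ (hctx i (hne i hi))).1.to_subtype
      have h : U.D {a : G | ∀ E : ↥(LL U G x i), a ∈ (kap (TT U G x 0) E.1 : Set G)} := by
        refine D_forall_fin fun E => ?_
        obtain ⟨L⟩ := E.2
        exact (hLNK U hF.act _ _ _ _ _ (hctx i (hne i hi)) E.1 L).2.2.2.2.2.1
      have e2 : {a : G | i ∈ J → ∀ E : ↥(LL U G x i), a ∈ (kap (TT U G x 0) E.1 : Set G)} =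
          {a : G | ∀ E : ↥(LL U G x i), a ∈ (kap (TT U G x 0) E.1 : Set G)} := by
        ext a
        exact ⟨fun h => h hi, fun h _ => h⟩
      rw [e2]
      exact h
    · have e2 : {a : G | i ∈ J → ∀ E : ↥(LL U G x i), a ∈ (kap (TT U G x 0) E.1 : Set G)} =
          {_a : G | True} := by
        ext a
        exact ⟨fun _ => trivial, fun _ h => (hi h).elim⟩
      rw [e2]
      exact D_true trivial
  · intro g hg
    exact (mem_lam.mp hg).1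
  · intro t ht l hl
    rw [mem_lam] at hl ⊢
    refine ⟨mul_mem (mul_mem ht hl.1) (inv_mem ht), fun i hi E hE => ?_⟩
    obtain ⟨K, _, χ, h1, h2, h3, h4⟩ := hχ i (hne i hi) E hE
    rw [h4]
    refine ⟨mul_mem (mul_mem ht hl.1) (inv_mem ht), ?_⟩
    have hl1 := ((h4 l).mp (hl.2 i hi E hE)).2
    rw [h2 _ (mul_mem ht hl.1) _ (inv_mem ht), h2 _ ht _ hl.1, hl1, mul_one,
      ← h2 _ ht _ (inv_mem ht), mul_inv_cancel, h1]
  · intro a ha b hb
    rw [mem_lam]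
    have hm : a * b * a⁻¹ * b⁻¹ ∈ TT U G x 0 :=
      mul_mem (mul_mem (mul_mem ha hb) (inv_mem ha)) (inv_mem hb)
    refine ⟨hm, fun i hi E hE => ?_⟩
    obtain ⟨K, _, χ, h1, h2, h3, h4⟩ := hχ i (hne i hi) E hE
    rw [h4]
    refine ⟨hm, ?_⟩
    have ea : χ a * χ a⁻¹ = 1 := by rw [← h2 _ ha _ (inv_mem ha), mul_inv_cancel, h1]
    have eb : χ b * χ b⁻¹ = 1 := by rw [← h2 _ hb _ (inv_mem hb), mul_inv_cancel, h1]
    rw [h2 _ (mul_mem (mul_mem ha hb) (inv_mem ha)) _ (inv_mem hb),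
      h2 _ (mul_mem ha hb) _ (inv_mem ha), h2 _ ha _ hb]
    calc χ a * χ b * χ a⁻¹ * χ b⁻¹ = (χ a * χ a⁻¹) * (χ b * χ b⁻¹) := by ring
      _ = 1 := by rw [ea, eb, one_mul]
  · intro g hg
    rw [mem_lam]
    refine ⟨(Subgroup.mem_inf.mp hg).1, fun i hi E hE => ?_⟩
    obtain ⟨L⟩ := hE
    exact (hLNK U hF.act _ _ _ _ _ (hctx i (hne i hi)) E L).2.2.2.1 hg
  · intro i hi E hE g hg
    exact (mem_lam.mp hg).2 i hi E hE
  · intro J' hJJ g hg
    rw [mem_lam] at hg ⊢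
    exact ⟨hg.1, fun i hi => hg.2 i (hJJ hi)⟩
  · intro J'
    ext g
    rw [Subgroup.mem_inf, mem_lam, mem_lam, mem_lam]
    constructor
    · rintro ⟨h1, h2⟩
      exact ⟨⟨h1, fun i hi => h2 i (Or.inl hi)⟩, h1, fun i hi => h2 i (Or.inr hi)⟩
    · rintro ⟨⟨h1, h2⟩, -, h3⟩
      refine ⟨h1, fun i hi => ?_⟩
      rcases hi with hi | hi
      · exact h2 i hi
      · exact h3 i hi
  · intro g σ hp h0
    ext h
    rw [mem_cj, mem_lam, mem_lam]
    have hT : g⁻¹ * h * g⁻¹⁻¹ ∈ TT U G x 0 ↔ h ∈ TT U G x 0 := by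
      rw [← mem_cj, (hCJH U x hF g σ hp).2.1 0, h0]
    rw [hT]
    have hK : ∀ i, i ≠ 0 → ∀ E ∈ LL U G x i,
        (g⁻¹ * h * g⁻¹⁻¹ ∈ kap (TT U G x 0) E ↔ h ∈ kap (TT U G x 0) (mv g E)) := by
      intro i hi E hE
      rw [← mem_cj, (hLCJ U x hF g σ hp h0 i hi E hE).2.1]
    constructor
    · rintro ⟨h1, h2⟩
      refine ⟨h1, ?_⟩
      rintro _ ⟨i, hi, rfl⟩ F hF2
      rw [← mv_image hLCJ hF hp h0 (hne i hi)] at hF2
      obtain ⟨E, hE, rfl⟩ := hF2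
      exact (hK i (hne i hi) E hE).mp (h2 i hi E hE)
    · rintro ⟨h1, h2⟩
      refine ⟨h1, fun i hi E hE => ?_⟩
      rw [hK i (hne i hi) E hE]
      refine h2 (σ i) ⟨i, hi, rfl⟩ _ ?_
      rw [← mv_image hLCJ hF hp h0 (hne i hi)]
      exact ⟨E, hE, rfl⟩

end Pool.Agent.H91.S
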