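import Pool.Agent.H91.S.LAB

/-!
# Row RHO of the board sgt_modules (MP_9d0bb7_lc): the ranks of the groups `lam`
-/

set_option autoImplicit false

open Set Pool.Agent.H77.BC Pool.Agent.H78.S
open scoped Pointwise

namespace Pool.Agent.H91.S

variable {M : Type} {G S : Type} [Group G] [MulAction G S]

/-- the indices `1, ..., j` -/
def Jn (n j : ℕ) : Set (Fin (n + 2)) := {i | 0 < i.val ∧ i.val ≤ j}

theorem Jn_zero (n : ℕ) : Jn n 0 = ∅ := by
  ext i
  simp only [Jn, mem_ofPred_eq, mem_empty_iff_false, iff_false]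
  omega

theorem Jn_not (n j : ℕ) : (0 : Fin (n + 2)) ∉ Jn n j := by
  intro h
  have h1 := h.1
  simp at h1

theorem Jn_succ {n j : ℕ} (h : j + 1 < n + 2) : Jn n (j + 1) = insert ⟨j + 1, h⟩ (Jn n j) := by
  ext i
  simp only [Jn, mem_ofPred_eq, mem_insert_iff, Fin.ext_iff]
  omega

theorem Jn_card {n : ℕ} : ∀ {j : ℕ}, j < n + 2 → (Jn n j).ncard = j := by
  intro j
  induction j with
  | zero =>
    intro _
    rw [Jn_zero, ncard_empty]
  | succ j ih =>
    intro h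
    rw [Jn_succ h, ncard_insert_of_notMem, ih (by omega)]
    intro h1
    have h2 := h1.2
    simp only at h2
    omega

theorem Jn_full (n : ℕ) : ({0}ᶜ : Set (Fin (n + 2))) = Jn n (n + 1) := by
  ext i
  simp only [Jn, mem_ofPred_eq, mem_compl_iff, mem_singleton_iff, Fin.ext_iff, Fin.val_zero]
  omega

theorem ncard_le {n : ℕ} {J : Set (Fin (n + 2))} (h : 0 ∉ J) : J.ncard < n + 2 := by
  have h1 : J ⊆ Jn n (n + 1) := by
    rw [← Jn_full]
    intro i hi h2
    exact h (h2 ▸ hi)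
  have h2 := ncard_le_ncard h1 (toFinite _)
  rw [Jn_card (by omega)] at h2
  omega

/-- a permutation fixing `0` which takes `A` to `B` -/
theorem ex_perm {n : ℕ} {A B : Set (Fin (n + 2))} (hA : 0 ∉ A) (hB : 0 ∉ B)
    (h : A.ncard = B.ncard) : ∃ σ : Equiv.Perm (Fin (n + 2)), σ 0 = 0 ∧ σ '' A = B := by
  classical
  obtain ⟨e⟩ : Nonempty (A ≃ B) := by
    rw [← Cardinal.eq, ← Set.cast_ncard (toFinite A), ← Set.cast_ncard (toFinite B), h]
  let τ : Equiv.Perm (Fin (n + 2)) := Equiv.extendSubtype e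
  have h1 : ∀ i (hi : i ∈ A), τ i = (e ⟨i, hi⟩ : Fin (n + 2)) := fun i hi =>
    Equiv.extendSubtype_apply_of_mem e i hi
  have h2 : τ '' A = B := by
    ext b
    constructor
    · rintro ⟨i, hi, rfl⟩
      rw [h1 i hi]
      exact (e ⟨i, hi⟩).2
    · intro hb
      refine ⟨(e.symm ⟨b, hb⟩ : Fin (n + 2)), (e.symm ⟨b, hb⟩).2, ?_⟩
      rw [h1 _ (e.symm ⟨b, hb⟩).2]
      simp
  have h3 : τ 0 ∉ B := by
    rw [← h2]
    rintro ⟨i, hi, h4⟩
    exact hA (τ.injective h4 ▸ hi)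
  refine ⟨Equiv.swap 0 (τ 0) * τ, ?_, ?_⟩
  · rw [Equiv.Perm.mul_apply, Equiv.swap_apply_right]
  · ext b
    constructor
    · rintro ⟨i, hi, rfl⟩
      have h4 : τ i ∈ B := by
        rw [← h2]
        exact ⟨i, hi, rfl⟩
      rw [Equiv.Perm.mul_apply, Equiv.swap_apply_of_ne_of_ne]
      · exact h4
      · exact fun h5 => hB (h5 ▸ h4)
      · exact fun h5 => h3 (h5 ▸ h4)
    · intro hb
      rw [← h2] at hb
      obtain ⟨i, hi, rfl⟩ := hb
      have h4 : τ i ∈ B := by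
        rw [← h2]
        exact ⟨i, hi, rfl⟩
      refine ⟨i, hi, ?_⟩
      rw [Equiv.Perm.mul_apply, Equiv.swap_apply_of_ne_of_ne]
      · exact fun h5 => hB (h5 ▸ h4)
      · exact fun h5 => h3 (h5 ▸ h4)

theorem pf_RHO (hLAB : T_LAB) (hSYM : T_SYM) (hLFI : T_LFI) (hLRK : T_LRK) (hLNK : T_LNK)
    (hLCJ : T_LCJ) (hHIC : T_HIC) (hHIJ : T_HIJ) : T_RHO := by
  intro M U G S _ _ _ _ n x hF hL
  have := hF.dg
  have := hF.ful
  have hctx : ∀ i, i ≠ 0 → Ctx U (HH U G x 0 i) (XX U G x i) (TT U G x 0) (x i) (x 0) :=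
    fun i hi => (hHIC U x hF i hi).1
  have h10 : (1 : Fin (n + 2)) ≠ 0 := by
    intro h
    have := congrArg Fin.val h
    simp at this
  have hI := hHIJ U x hF 0 1 h10.symm
  have hTT : U.D (TT U G x 0 : Set G) := hI.2.1.1
  have hfin : ∀ i, i ≠ 0 → (LL U G x i).Finite := fun i hi =>
    (hLFI U hF.act _ _ _ _ _ (hctx i hi)).1
  -- all ranks
  have hne : ∀ H : Subgroup G, (H : Set G).Nonempty := fun H => ⟨1, H.one_mem⟩
  have hD : ∀ J : Set (Fin (n + 2)), 0 ∉ J → U.D (lam U G x J : Set G) := fun J hJ =>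
    (hLAB U x hF J hJ).1
  have hle : ∀ J : Set (Fin (n + 2)), 0 ∉ J →
      U.R (lam U G x J : Set G) ≤ U.R (TT U G x 0 : Set G) := fun J hJ =>
    (l_RKA U).mono (hD J hJ) hTT (hne _) (hLAB U x hF J hJ).2.1
  have hmono : ∀ J J' : Set (Fin (n + 2)), 0 ∉ J → 0 ∉ J' → J ⊆ J' →
      U.R (lam U G x J' : Set G) ≤ U.R (lam U G x J : Set G) := fun J J' hJ hJ' h =>
    (l_RKA U).mono (hD J' hJ') (hD J hJ) (hne _) ((hLAB U x hF J hJ).2.2.2.2.2.2.1 J' h)
  have hcard : ∀ J J' : Set (Fin (n + 2)), 0 ∉ J → 0 ∉ J' → J.ncard = J'.ncard →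
      U.R (lam U G x J : Set G) = U.R (lam U G x J' : Set G) := by
    intro J J' hJ hJ' h
    obtain ⟨σ, h0, rfl⟩ := ex_perm hJ hJ' h
    obtain ⟨g, hg⟩ := (hSYM U x hF).2 σ
    rw [← (hLAB U x hF J hJ).2.2.2.2.2.2.2.2 g σ hg h0, (l_CNJ U g⁻¹ _ (hD J hJ)).2.1]
  have hr : ∀ J : Set (Fin (n + 2)), 0 ∉ J → U.R (lam U G x J : Set G) +
      (U.R (TT U G x 0 : Set G) - U.R (lam U G x (Jn n J.ncard) : Set G)) =
        U.R (TT U G x 0 : Set G) := by
    intro J hJ
    have h1 := hcard J (Jn n J.ncard) hJ (Jn_not _ _) (Jn_card (ncard_le hJ)).symm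
    have h2 := hle J hJ
    omega
  have hk : ∀ i, i ≠ 0 → ∀ E ∈ LL U G x i,
      U.R (kap (TT U G x 0) E : Set G) + 1 ≤ U.R (TT U G x 0 : Set G) := by
    intro i hi E hE
    obtain ⟨L⟩ := hE
    exact (hLNK U hF.act _ _ _ _ _ (hctx i hi) E L).2.2.2.2.2.2.1
  -- the numbers of lines
  have hs : ∀ i, i ≠ 0 → (LL U G x i).ncard = (LL U G x 1).ncard := by
    intro i hi
    obtain ⟨σ, h0, h1⟩ := ex_perm (A := {1}) (B := {i}) (fun h => h10 h.symm) (fun h => hi h.symm)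
      (by rw [ncard_singleton, ncard_singleton])
    rw [image_singleton, singleton_eq_singleton_iff] at h1
    obtain ⟨g, hg⟩ := (hSYM U x hF).2 σ
    have h2 := mv_image hLCJ hF hg h0 h10
    rw [h1] at h2
    rw [← h2, ncard_image_of_injective _ (mv_inj g)]
  have hsum : ∀ i, i ≠ 0 → ∃ (t : ℕ) (E : Fin t → Set (S × S)), t = (LL U G x i).ncard ∧
      range E = LL U G x i ∧ U.R (lam U G x {i} : Set G) +
        ∑ j, (U.R (TT U G x 0 : Set G) - U.R (kap (TT U G x 0) (E j) : Set G)) =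
          U.R (TT U G x 0 : Set G) := by
    intro i hi
    have : Finite ↥(LL U G x i) := (hfin i hi).to_subtype
    let e := Finite.equivFin ↥(LL U G x i)
    have hE : ∀ j, (e.symm j).1 ∈ LL U G x i := fun j => (e.symm j).2
    have hR : range (fun j => (e.symm j).1) = LL U G x i := by
      ext E
      constructor
      · rintro ⟨j, rfl⟩
        exact hE j
      · intro h
        exact ⟨e ⟨E, h⟩, congrArg Subtype.val (e.symm_apply_apply ⟨E, h⟩)⟩
    refine ⟨_, fun j => (e.symm j).1, Nat.card_coe_set_eq _, hR, ?_⟩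
    have h := (hLRK U hF.act _ _ _ _ _ (hctx i hi) _ (fun j => (e.symm j).1)
      (fun a b hab => e.symm.injective (Subtype.ext hab)) hE).2
    have e2 : lam U G x {i} = TT U G x 0 ⊓ ⨅ j, kap (TT U G x 0) (e.symm j).1 := by
      ext g
      rw [mem_lam, Subgroup.mem_inf, Subgroup.mem_iInf]
      constructor
      · rintro ⟨h1, h2⟩
        exact ⟨h1, fun j => h2 i rfl _ (hE j)⟩
      · rintro ⟨h1, h2⟩
        refine ⟨h1, ?_⟩
        rintro _ rfl E hE2
        have h3 := h2 (e ⟨E, hE2⟩)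
        rwa [e.symm_apply_apply ⟨E, hE2⟩] at h3
    rw [e2]
    exact h
  have hr1 : ∀ i, i ≠ 0 → U.R (lam U G x {i} : Set G) = U.R (lam U G x (Jn n 1) : Set G) := by
    intro i hi
    refine hcard _ _ (fun h => hi h.symm) (Jn_not _ _) ?_
    rw [ncard_singleton, Jn_card (by omega)]
  have hdefx : U.D (Fx (TT U G x 0) (x 0) : Set G) := by
    have h1 : DFn U (fun g : G => g • x 0) :=
      DFn_comp (f := fun g : G => (g, x 0)) hF.act (DFn_pair DFn_id (DFn_const _))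
    have h2 : U.D {g : G | g • x 0 ∈ ({x 0} : Set S)} := DFn_preim h1 (D_singleton _)
    exact D_inter hTT h2
  refine ⟨(LL U G x 1).ncard, fun j => U.R (TT U G x 0 : Set G) -
    U.R (lam U G x (Jn n j) : Set G), ?_, fun i hi => ⟨hfin i hi, hs i hi⟩, ?_, ?_, ?_, hr, ?_, ?_,
    ?_⟩
  · rw [Nat.one_le_iff_ne_zero, ← Nat.pos_iff_ne_zero, ncard_pos (hfin 1 h10)]
    exact hL 1 h10
  · have e : lam U G x (Jn n 0) = TT U G x 0 := by
      rw [Jn_zero]
      ext g
      rw [mem_lam]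
      exact ⟨fun h => h.1, fun h => ⟨h, fun i hi => hi.elim⟩⟩
    simp only [e]
    omega
  · obtain ⟨t, E, h1, h2, h3⟩ := hsum 1 h10
    have h4 := hr1 1 h10
    have h5 : ∑ _j : Fin t, 1 ≤
        ∑ j, (U.R (TT U G x 0 : Set G) - U.R (kap (TT U G x 0) (E j) : Set G)) := by
      refine Finset.sum_le_sum fun j _ => ?_
      have h6 := hk 1 h10 (E j) (h2 ▸ mem_range_self j)
      omega
    rw [Finset.sum_const, Finset.card_univ, Fintype.card_fin, smul_eq_mul, mul_one] at h5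
    change (LL U G x 1).ncard ≤ U.R (TT U G x 0 : Set G) - U.R (lam U G x (Jn n 1) : Set G)
    omega
  · have h1 := (hLAB U x hF (Jn n (n + 1)) (Jn_not _ _)).2.2.2.2.1
    have h2 := (l_RKA U).mono hdefx (hD (Jn n (n + 1)) (Jn_not _ _)) (hne _) h1
    have h3 := hI.2.2.2.2.2.2.2.2.2.2.2.2
    change U.R (TT U G x 0 : Set G) - U.R (lam U G x (Jn n (n + 1)) : Set G) ≤ n
    omega
  · intro j hj
    have h1 := hmono (Jn n j) (Jn n (j + 1)) (Jn_not _ _) (Jn_not _ _) (by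
      rw [Jn_succ (by omega)]
      exact subset_insert _ _)
    change U.R (TT U G x 0 : Set G) - U.R (lam U G x (Jn n j) : Set G) ≤
      U.R (TT U G x 0 : Set G) - U.R (lam U G x (Jn n (j + 1)) : Set G)
    omega
  · intro j hj
    have hb : (⟨j + 1 + 1, by omega⟩ : Fin (n + 2)) ∉ Jn n j := by
      intro h
      have h2 := h.2
      simp only at h2
      omega
    have hb0 : (0 : Fin (n + 2)) ∉ insert (⟨j + 1 + 1, by omega⟩ : Fin (n + 2)) (Jn n j) := by
      rintro (h | h)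
      · have h2 := congrArg Fin.val h
        simp at h2
      · exact Jn_not _ _ h
    have h1 := hcard (insert (⟨j + 1 + 1, by omega⟩ : Fin (n + 2)) (Jn n j)) (Jn n (j + 1)) hb0
      (Jn_not _ _) (by rw [ncard_insert_of_notMem hb, Jn_card (by omega), Jn_card (by omega)])
    have h2 := l_GRB U (lam U G x (Jn n j)) (lam U G x (Jn n (j + 1)))
      (lam U G x (insert (⟨j + 1 + 1, by omega⟩ : Fin (n + 2)) (Jn n j)))
      (hD _ (Jn_not _ _)) (hD _ (Jn_not _ _)) (hD _ hb0)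
      ((hLAB U x hF (Jn n j) (Jn_not _ _)).2.2.2.2.2.2.1 _ (by
        rw [Jn_succ (by omega)]
        exact subset_insert _ _))
      ((hLAB U x hF (Jn n j) (Jn_not _ _)).2.2.2.2.2.2.1 _ (subset_insert _ _))
    rw [← (hLAB U x hF (Jn n (j + 1)) (Jn_not _ _)).2.2.2.2.2.2.2.1] at h2
    have e : Jn n (j + 1) ∪ insert (⟨j + 1 + 1, by omega⟩ : Fin (n + 2)) (Jn n j) =
        Jn n (j + 2) := by
      have e3 : Jn n (j + 2) = insert ⟨j + 1 + 1, by omega⟩ (Jn n (j + 1)) := Jn_succ (by omega)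
      rw [e3, Jn_succ (n := n) (j := j) (by omega)]
      ext i
      simp only [mem_union, mem_insert_iff]
      tauto
    rw [e] at h2
    have h3 := hle (Jn n j) (Jn_not _ _)
    have h4 := hle (Jn n (j + 1)) (Jn_not _ _)
    have h5 := hle (Jn n (j + 2)) (Jn_not _ _)
    change U.R (TT U G x 0 : Set G) - U.R (lam U G x (Jn n (j + 2)) : Set G) +
      (U.R (TT U G x 0 : Set G) - U.R (lam U G x (Jn n j) : Set G)) ≤
      U.R (TT U G x 0 : Set G) - U.R (lam U G x (Jn n (j + 1)) : Set G) +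
      (U.R (TT U G x 0 : Set G) - U.R (lam U G x (Jn n (j + 1)) : Set G))
    omega
  · intro h i hi F hF2
    change U.R (TT U G x 0 : Set G) - U.R (lam U G x (Jn n 1) : Set G) =
      (LL U G x 1).ncard at h
    obtain ⟨t, E, h1, h2, h3⟩ := hsum i hi
    rw [hr1 i hi] at h3
    rw [hs i hi] at h1
    have h4 : ∀ j ∈ (Finset.univ : Finset (Fin t)), 1 ≤
        (U.R (TT U G x 0 : Set G) - U.R (kap (TT U G x 0) (E j) : Set G)) := by
      intro j _
      have h6 := hk i hi (E j) (h2 ▸ mem_range_self j)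
      omega
    have h5 : ∑ _j : Fin t, 1 =
        ∑ j, (U.R (TT U G x 0 : Set G) - U.R (kap (TT U G x 0) (E j) : Set G)) := by
      rw [Finset.sum_const, Finset.card_univ, Fintype.card_fin, smul_eq_mul, mul_one]
      omega
    rw [Finset.sum_eq_sum_iff_of_le h4] at h5
    obtain ⟨j, rfl⟩ : F ∈ range E := h2 ▸ hF2
    have h6 := h5 j (Finset.mem_univ _)
    have h7 := hk i hi (E j) hF2
    omega

end Pool.Agent.H91.S
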